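import Mathlib
import Pool.Agent.ESel.Final
import Pool.Agent.ESel.Exists

/-!
`n_k` grows faster than every polynomial: `n_k > k^{(log log k)/5}` for all large `k`.
-/

namespace Pool.Agent.Results.MP_14bcfc_nt.SuperPolynomial

/-- `N(n,k)`: the number of `i` with `0 ≤ i ≤ k - 1` and `(n - i) ∤ C(n,k)`. -/
def N (n k : ℕ) : ℕ := ((Finset.range k).filter fun i => ¬ (n - i) ∣ n.choose k).card

/-- `n_k`: the least integer `n ≥ 2k` with `N(n,k) = 1`. -/
noncomputable def nk (k : ℕ) : ℕ := sInf {n : ℕ | 2 * k ≤ n ∧ N n k = 1}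

/-- For `k ≥ 3` the set whose least element is `n_k` is nonempty (so that `nk k` belongs to it),
and `n_k > k^{(log log k)/5}` for all sufficiently large `k`. -/
theorem result :
    (∀ k ≥ 3, 2 * k ≤ nk k ∧ N (nk k) k = 1) ∧
    (∃ k₀ : ℕ, ∀ k ≥ k₀, (k : ℝ) ^ (Real.log (Real.log k) / 5) < nk k) := by
  have hmem : ∀ k ≥ 3, nk k ∈ {n : ℕ | 2 * k ≤ n ∧ N n k = 1} := by
    intro k hk
    refine Nat.sInf_mem ⟨k.factorial, Pool.Agent.ESel.two_mul_le_factorial hk, ?_⟩
    show (Pool.Agent.ESel.bad k.factorial k).card = 1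
    rw [Pool.Agent.ESel.bad_factorial (by omega), Finset.card_singleton]
  refine ⟨hmem, ?_⟩
  obtain ⟨k1, hk1⟩ := Pool.Agent.ESel.main
  refine ⟨max k1 3, fun k hk => ?_⟩
  have hk3 : 3 ≤ k := le_trans (le_max_right _ _) hk
  obtain ⟨hn, hN⟩ := hmem k hk3
  have h1 := hk1 k (le_trans (le_max_left _ _) hk) (nk k) hn hN
  have hk0 : (0 : ℝ) < k := by
    have : 0 < k := by omega
    exact_mod_cast this
  have hn0 : (0 : ℝ) < nk k := by
    have : 0 < nk k := by omega
    exact_mod_cast this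
  rw [← Real.log_lt_log_iff (by positivity) hn0, Real.log_rpow hk0]
  refine lt_of_le_of_lt (le_of_eq ?_) h1
  ring

end Pool.Agent.Results.MP_14bcfc_nt.SuperPolynomial
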