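import Mathlib
import Pool.Agent.ESel.UpD
import Pool.Agent.ESel.Exists

/-!
`n_k ≤ exp ((1 + ε) k log log k / log k)` for all large `k`.
-/

namespace Pool.Agent.Results.MP_14bcfc_nt.UpperBound

/-- `N(n,k)`: the number of `i` with `0 ≤ i ≤ k - 1` and `(n - i) ∤ C(n,k)`. -/
def N (n k : ℕ) : ℕ := ((Finset.range k).filter fun i => ¬ (n - i) ∣ n.choose k).card

/-- `n_k`: the least integer `n ≥ 2k` with `N(n,k) = 1`. -/
noncomputable def nk (k : ℕ) : ℕ := sInf {n : ℕ | 2 * k ≤ n ∧ N n k = 1}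

/-- For `k ≥ 3` the set whose least element is `n_k` is nonempty (so that `nk k` belongs to it),
and for every `ε > 0`, `n_k ≤ exp ((1 + ε) k log log k / log k)` for all sufficiently large `k`. -/
theorem result :
    (∀ k ≥ 3, 2 * k ≤ nk k ∧ N (nk k) k = 1) ∧
    (∀ ε : ℝ, 0 < ε → ∃ k₀ : ℕ, ∀ k ≥ k₀,
      (nk k : ℝ) ≤ Real.exp ((1 + ε) * k * Real.log (Real.log k) / Real.log k)) := by
  refine ⟨fun k hk => ?_, fun ε hε => ?_⟩
  · refine Nat.sInf_mem (s := {n : ℕ | 2 * k ≤ n ∧ N n k = 1})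
      ⟨k.factorial, Pool.Agent.ESel.two_mul_le_factorial hk, ?_⟩
    show (Pool.Agent.ESel.bad k.factorial k).card = 1
    rw [Pool.Agent.ESel.bad_factorial (by omega), Finset.card_singleton]
  · obtain ⟨k0, hk0⟩ := Pool.Agent.ESel.upper hε
    refine ⟨max k0 1, fun k hk => ?_⟩
    obtain ⟨n, hn, hb, hle⟩ := hk0 k (le_trans (le_max_left _ _) hk)
    have h1 : nk k ≤ n := Nat.sInf_le ⟨hn, hb⟩
    have hk1 : 1 ≤ k := le_trans (le_max_right _ _) hk
    have hn0 : (0 : ℝ) < n := by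
      have : 0 < n := by omega
      exact_mod_cast this
    calc (nk k : ℝ) ≤ n := by exact_mod_cast h1
      _ = Real.exp (Real.log n) := (Real.exp_log hn0).symm
      _ ≤ _ := Real.exp_le_exp.2 hle

end Pool.Agent.Results.MP_14bcfc_nt.UpperBound
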